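import Pool.Agent.Run7.h74.AE.Fin2

/-!
# Moments of zeta of all complex orders, with arbitrary shifts and relative to every Dirichlet polynomial

`logZ t` is the logarithm of `ζ(1/2+it)` by continuous variation along the horizontal ray from the right; its imaginary part
is `π S(t)`. For a complex number `k` the size of `ζ(1/2+it)^k` is `|exp (k logZ t)| = |ζ|^(Re k) exp (-π S(t) Im k)`.

For `A ≥ 1` and `ε > 0` there are positive numbers `δ, W, c, C` such that for all large `T` there is ONE measurable set `G`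
of reals with the following properties.

* at every `t` in `G`: `ζ(1/2+it) = exp (logZ t)`, not zero, and `logZ t` differs from the logarithm of the Euler product over the primes
  `p ≤ T ^ δ` at `1/2+it` (the sum of the principal logarithms of the factors) by at most `W`: both the modulus and the ARGUMENT;
* the complement of `G` is negligible relative to EVERY Dirichlet polynomial `B` of length `T ^ δ` with
  arbitrary complex coefficients, after every shift: the part of `∫_T^{2T} |B(t)|² dt` over the `t` with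
  `t + α` outside `G` is at most `ε ∫_T^{2T} |B(t)|² dt`, `|α| ≤ T/2`;
* moments of all complex orders: for all complex `k`, `|k| ≤ A`, and all shifts `|α| ≤ T/2` the integral of `|ζ(1/2+i(t+α))^k|²` over the `t`
  in `[T, 2T]` with `t + α` in `G` is between `c` and `C` times `T (log T) ^ (|k|²)`; for imaginary `k` these are the
  exponential moments of `S(t)`;
* shifted moments of all complex orders: for all complex `k_1, ..., k_n` and real shifts `α_1, ..., α_n` with `n ≤ A`, `∑ |k_j| ≤ A`, `|α_j| ≤ T/2`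
  the integral of `|∏ ζ(1/2 + i(t+α_j)) ^ (k_j)|²` over the `t` in `[T, 2T]` with all `t + α_j` in `G` is between `c` and `C` times
  `T exp (∑_{p ≤ T} |∑_j k_j p^(-iα_j)|² / p)`;
* the same with every Dirichlet polynomial `B` of length `T ^ δ` as a weight: the order is that of `∫_T^{2T} |E B|²` with one Dirichlet
  polynomial `E` of length at most `T ^ (1/8)` which depends only on the exponents and the shifts.
-/

set_option autoImplicit false

open Filter Topology MeasureTheory Complex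

namespace Pool.Agent.Results.MP_973905_nt.ComplexOrdersEveryWeight

/-- the Dirichlet polynomial `∑ b_n n ^ (-1/2-it)`, `n ≤ N` -/
noncomputable def D (N : ℕ) (b : ℕ → ℂ) (t : ℝ) : ℂ :=
  ∑ n ∈ Finset.Icc 1 N, b n * (n : ℂ) ^ (-(1 / 2 + t * I))

/-- `∑ |b_n|² / n`, `n ≤ N` -/
noncomputable def norm2 (N : ℕ) (b : ℕ → ℂ) : ℝ := ∑ n ∈ Finset.Icc 1 N, ‖b n‖ ^ 2 / n

/-- zeta on the critical line -/
noncomputable def z (t : ℝ) : ℂ := riemannZeta (1 / 2 + t * I)

/-- the argument of zeta at `1/2 + it` by continuous variation along the horizontal ray from the right (this is `π S(t)`) -/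
noncomputable def argZ (t : ℝ) : ℝ :=
  -∫ σ in Set.Ioi (1 / 2 : ℝ), (deriv riemannZeta (σ + t * I) / riemannZeta (σ + t * I)).im

/-- the logarithm of zeta at `1/2 + it` -/
noncomputable def logZ (t : ℝ) : ℂ := (Real.log ‖z t‖ : ℂ) + (argZ t : ℂ) * I

/-- the logarithm of the Euler product over the primes `p ≤ X` at `1/2 + it` -/
noncomputable def eulerLog (X : ℕ) (t : ℝ) : ℂ :=
  -∑ p ∈ (Finset.Icc 1 X).filter Nat.Prime, Complex.log (1 - (p : ℂ) ^ (-(1 / 2 + t * I)))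

/-- the product of the complex powers `ζ(1/2 + i(t+α_j)) ^ (k_j)` -/
noncomputable def power {n : ℕ} (k : Fin n → ℂ) (α : Fin n → ℝ) (t : ℝ) : ℂ := cexp (∑ j, k j * logZ (t + α j))

/-- the predicted order of the shifted moment -/
noncomputable def predicted {n : ℕ} (k : Fin n → ℂ) (α : Fin n → ℝ) (T : ℝ) : ℝ :=
  Real.exp (∑ p ∈ (Finset.Icc 1 ⌊T⌋₊).filter Nat.Prime, ‖∑ j, k j * (p : ℂ) ^ (-(α j * I))‖ ^ 2 / p)

/-- the `t` in `[T, 2T]` with all `t + α_j` in `G` -/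
def good (G : Set ℝ) (T : ℝ) {n : ℕ} (α : Fin n → ℝ) : Set ℝ :=
  {t : ℝ | t ∈ Set.Icc T (2 * T) ∧ ∀ j, t + α j ∈ G}

open Pool.Agent.Q97.UM Run7.h311.CM Pool.Agent.Run7.h74.AE

/-- truncated coefficients -/
noncomputable def cut (N : ℕ) (b : ℕ → ℂ) (n : ℕ) : ℂ := if 1 ≤ n ∧ n ≤ N then b n else 0

lemma cut_supp (N : ℕ) (b : ℕ → ℂ) : ∀ n, cut N b n ≠ 0 → 1 ≤ n ∧ n ≤ N := by
  intro n hn
  unfold cut at hn
  by_contra h
  exact hn (if_neg h)

lemma cut_self {N : ℕ} {b : ℕ → ℂ} (h : ∀ n, b n ≠ 0 → 1 ≤ n ∧ n ≤ N) : cut N b = b := by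
  funext n
  unfold cut
  by_cases hn : 1 ≤ n ∧ n ≤ N
  · rw [if_pos hn]
  · rw [if_neg hn]
    by_contra h2
    exact hn (h n (Ne.symm h2))

lemma D_cut (N : ℕ) (b : ℕ → ℂ) (t : ℝ) : D N b t = dp N (cut N b) t := by
  unfold D dp
  refine Finset.sum_congr rfl fun n hn => ?_
  rw [Finset.mem_Icc] at hn
  unfold cut
  rw [if_pos hn]

lemma norm2_cut (N : ℕ) (b : ℕ → ℂ) : norm2 N b = N2 N (cut N b) := by
  unfold norm2 N2
  refine Finset.sum_congr rfl fun n hn => ?_
  rw [Finset.mem_Icc] at hn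
  unfold cut
  rw [if_pos hn]

lemma predicted_eq {n : ℕ} (k : Fin n → ℂ) (α : Fin n → ℝ) (T : ℝ) :
    predicted k α T = Real.exp (PS k α T) := rfl

lemma eulerLog_eq (X : ℕ) (t : ℝ) : eulerLog X t = LE X t := rfl

lemma set_Icc_Ioc {T : ℝ} {P : ℝ → Prop} {F : ℝ → ℝ} :
    ∫ t in {t : ℝ | t ∈ Set.Icc T (2 * T) ∧ P t}, F t = ∫ t in Set.Ioc T (2 * T) ∩ {t : ℝ | P t}, F t := by
  refine setIntegral_congr_set ?_
  have h : (Set.Icc T (2 * T) : Set ℝ) =ᵐ[volume] Set.Ioc T (2 * T) := Ioc_ae_eq_Icc.symm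
  exact h.inter (ae_eq_refl {t : ℝ | P t})

/-- the size of the product of complex powers -/
lemma power_wz {n : ℕ} (k : Fin n → ℂ) (α : Fin n → ℝ) {t : ℝ} (h : ∀ j, z (t + α j) ≠ 0) :
    ‖power k α t‖ ^ 2 = wz k α t := by
  unfold power wz
  rw [Complex.norm_exp, ← Real.exp_nat_mul, Complex.re_sum, Finset.mul_sum, Real.exp_sum]
  refine Finset.prod_congr rfl fun j _ => ?_
  have h0 : 0 < ‖zt (t + α j)‖ := norm_pos_iff.2 (h j)
  rw [Real.rpow_def_of_pos h0, ← Real.exp_add]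
  congr 1
  have e : (k j * logZ (t + α j)).re = (k j).re * Real.log ‖zt (t + α j)‖ - (k j).im * az (t + α j) := by
    have h1 : (logZ (t + α j)).re = Real.log ‖zt (t + α j)‖ := by
      unfold logZ
      simp
      rfl
    have h2 : (logZ (t + α j)).im = az (t + α j) := by
      unfold logZ
      simp
      rfl
    rw [Complex.mul_re, h1, h2]
  rw [e]
  push_cast
  ring

lemma cv_one {M : ℕ} (e : ℕ → ℂ) {b1 : ℕ → ℂ} (hb1 : b1 = fun n => if n = 1 then 1 else 0) :
    N2 (M * 1) (cv e b1) = N2 M e := by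
  have hcv : cv e b1 = fun n => if n = 0 then 0 else e n := by
    funext n
    unfold cv
    by_cases hn : n = 0
    · subst hn
      simp
    · rw [if_neg hn, Finset.sum_eq_single (n, 1)]
      · simp [hb1]
      · intro p hp hpn
        rw [Nat.mem_divisorsAntidiagonal] at hp
        have : p.2 ≠ 1 := fun h => hpn (by
          rw [h, mul_one] at hp
          exact Prod.ext hp.1 h)
        simp [hb1, this]
      · intro h
        exact absurd (Nat.mem_divisorsAntidiagonal.2 ⟨by simp, hn⟩) h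
  rw [mul_one, hcv]
  unfold N2
  refine Finset.sum_congr rfl fun n hn => ?_
  have : n ≠ 0 := by
    have := (Finset.mem_Icc.1 hn).1
    omega
  simp [this]

/-- **moments of zeta of all complex orders, with arbitrary shifts and relative to every Dirichlet polynomial** -/
theorem result (A ε : ℝ) (hA : 1 ≤ A) (hε : 0 < ε) :
    ∃ δ W c C : ℝ, 0 < δ ∧ 0 < W ∧ 0 < c ∧ 0 < C ∧ ∀ᶠ T : ℝ in atTop,
      ∃ G : Set ℝ, MeasurableSet G ∧
      (∀ t ∈ G, z t ≠ 0 ∧ z t = cexp (logZ t) ∧ ‖logZ t - eulerLog ⌊T ^ δ⌋₊ t‖ ≤ W) ∧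
      (∀ (α : ℝ) (N : ℕ) (b : ℕ → ℂ), |α| ≤ T / 2 → (N : ℝ) ≤ T ^ δ →
        ∫ t in {t : ℝ | t ∈ Set.Icc T (2 * T) ∧ t + α ∉ G}, ‖D N b t‖ ^ 2 ≤
          ε * ∫ t in T..(2 * T), ‖D N b t‖ ^ 2) ∧
      (∀ (k : ℂ) (α : ℝ), ‖k‖ ≤ A → |α| ≤ T / 2 →
        c * (T * Real.log T ^ (‖k‖ ^ 2)) ≤
          ∫ t in {t : ℝ | t ∈ Set.Icc T (2 * T) ∧ t + α ∈ G}, ‖cexp (k * logZ (t + α))‖ ^ 2 ∧
        ∫ t in {t : ℝ | t ∈ Set.Icc T (2 * T) ∧ t + α ∈ G}, ‖cexp (k * logZ (t + α))‖ ^ 2 ≤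
          C * (T * Real.log T ^ (‖k‖ ^ 2))) ∧
      (∀ (n : ℕ) (k : Fin n → ℂ) (α : Fin n → ℝ), (n : ℝ) ≤ A → ∑ j, ‖k j‖ ≤ A → (∀ j, |α j| ≤ T / 2) →
        c * (T * predicted k α T) ≤ ∫ t in good G T α, ‖power k α t‖ ^ 2 ∧
        ∫ t in good G T α, ‖power k α t‖ ^ 2 ≤ C * (T * predicted k α T)) ∧
      ∀ (n : ℕ) (k : Fin n → ℂ) (α : Fin n → ℝ), (n : ℝ) ≤ A → ∑ j, ‖k j‖ ≤ A → (∀ j, |α j| ≤ T / 2) →
        ∃ (M : ℕ) (e : ℕ → ℂ), (M : ℝ) ≤ T ^ (1 / 8 : ℝ) ∧
        c * predicted k α T ≤ norm2 M e ∧ norm2 M e ≤ C * predicted k α T ∧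
        ∀ (N : ℕ) (b : ℕ → ℂ), (N : ℝ) ≤ T ^ δ →
          c * ∫ t in T..(2 * T), ‖D M e t‖ ^ 2 * ‖D N b t‖ ^ 2 ≤
            ∫ t in good G T α, ‖power k α t‖ ^ 2 * ‖D N b t‖ ^ 2 ∧
          ∫ t in good G T α, ‖power k α t‖ ^ 2 * ‖D N b t‖ ^ 2 ≤
            C * ∫ t in T..(2 * T), ‖D M e t‖ ^ 2 * ‖D N b t‖ ^ 2 := by
  classical
  have hA0 : 0 < A := by linarith
  have hz : S_AZM := Pool.Agent.Run7.h510.AE.t_AZM
  obtain ⟨δ, κ, W, c, C, hδ, hκ, hκδ, hW, hc, hC, h⟩ := finc_main full_THA hz A (ε / 2) hA (by positivity)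
  obtain ⟨C₅, hC₅, hmert⟩ := mert
  obtain ⟨K, hK⟩ : ∃ K : ℝ, K = Real.exp (A ^ 2 * C₅) := ⟨_, rfl⟩
  have hK0 : 0 < K := by rw [hK]; positivity
  have hK1 : 1 ≤ K := by rw [hK]; exact Real.one_le_exp (by positivity)
  refine ⟨δ, 2 * W, min (c / 2) (c ^ 2) / K, max (2 * C) (C ^ 2) * K, hδ, by positivity, by positivity, by positivity, ?_⟩
  filter_upwards [h, hmert, eventually_ge_atTop 16] with T hd hmert hT
  have hT0 : 0 < T := by linarith
  have hT1 : 1 ≤ T := by linarith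
  have hL : 0 < Real.log T := Real.log_pos (by linarith)
  have hTδ : T ^ δ ≤ T ^ (1 / 4 : ℝ) := Real.rpow_le_rpow_of_exponent_le hT1 (by nlinarith)
  set M := M9 (δ * Real.log T) κ with hM
  have hML : (M : ℝ) ≤ T ^ (26 * κ * δ) := M9_le hT0 (by linarith) hδ.le
  have hM8 : (M : ℝ) ≤ T ^ (1 / 8 : ℝ) := hML.trans (Real.rpow_le_rpow_of_exponent_le hT1 (by nlinarith))
  have h1δ : (1 : ℝ) ≤ T ^ δ := Real.one_le_rpow hT1 hδ.le
  set G := GGD δ κ A W T with hG
  have hGC : ∀ t ∈ G, t ∈ GGC δ κ A W T := fun t ht => ht.1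
  -- change of the set
  have hset : ∀ {n : ℕ} (α : Fin n → ℝ), (good G T α : Set ℝ) =ᵐ[volume] SC δ κ A W T α := by
    intro n α
    have h1 : (Set.Icc T (2 * T) : Set ℝ) =ᵐ[volume] Set.Ioc T (2 * T) := Ioc_ae_eq_Icc.symm
    have h2 : ({t : ℝ | ∀ j, t + α j ∈ G} : Set ℝ) =ᵐ[volume] {t : ℝ | ∀ j, t + α j ∈ GGC δ κ A W T} := by
      have h3 : ∀ j, ({t : ℝ | t + α j ∈ G} : Set ℝ) =ᵐ[volume] {t : ℝ | t + α j ∈ GGC δ κ A W T} :=
        fun j => shift_ae (GGD_ae δ κ A W T) (α j)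
      have h4 := Filter.EventuallyEq.countable_iInter h3
      have e1 : ∀ S : Set ℝ, {t : ℝ | ∀ j, t + α j ∈ S} = ⋂ j, {t : ℝ | t + α j ∈ S} := by
        intro S
        ext t
        simp
      rw [e1, e1]
      exact h4
    exact h1.inter h2
  have hgood : ∀ {n : ℕ} (k : Fin n → ℂ) (α : Fin n → ℝ) (F : ℝ → ℝ), ∫ t in good G T α, ‖power k α t‖ ^ 2 * F t =
      ∫ t in SC δ κ A W T α, wz k α t * F t := by
    intro n k α F
    rw [setIntegral_congr_set (hset α)]
    refine setIntegral_congr_fun (SC_meas hz δ κ A W T α) fun t ht => ?_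
    have h1 : ‖power k α t‖ ^ 2 = wz k α t := power_wz k α fun j => (ht.2 j).1.1
    show ‖power k α t‖ ^ 2 * F t = wz k α t * F t
    rw [h1]
  -- the trivial weight
  set b1 : ℕ → ℂ := fun n => if n = 1 then 1 else 0 with hb1
  have hb1s : ∀ n, b1 n ≠ 0 → 1 ≤ n ∧ n ≤ 1 := by
    intro n hn
    rw [hb1] at hn
    by_cases h : n = 1
    · omega
    · exact absurd (if_neg h) hn
  have hdp1 : ∀ t, dp 1 b1 t = 1 := by
    intro t
    unfold dp
    simp [hb1]
  have hmin0 : 0 < min (c / 2) (c ^ 2) := by positivity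
  have hminK : min (c / 2) (c ^ 2) / K ≤ min (c / 2) (c ^ 2) := div_le_self hmin0.le hK1
  have hmax0 : 0 < max (2 * C) (C ^ 2) := by positivity
  have hmaxK : max (2 * C) (C ^ 2) ≤ max (2 * C) (C ^ 2) * K := le_mul_of_one_le_right hmax0.le hK1
  -- the shifted moments
  have hmom : ∀ (n : ℕ) (k : Fin n → ℂ) (α : Fin n → ℝ), (n : ℝ) ≤ A → ∑ j, ‖k j‖ ≤ A → (∀ j, |α j| ≤ T / 2) →
      min (c / 2) (c ^ 2) * (T * predicted k α T) ≤ ∫ t in good G T α, ‖power k α t‖ ^ 2 ∧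
        ∫ t in good G T α, ‖power k α t‖ ^ 2 ≤ max (2 * C) (C ^ 2) * (T * predicted k α T) := by
    intro n k α hn hk hα
    set e : ℕ → ℂ := ecc δ κ T k α with he
    have hN2 : N2 (M * 1) (cv e b1) = N2 M e := cv_one e hb1
    obtain ⟨hl, hh⟩ := hd.ord n k α hk
    rw [← he, ← hM, ← predicted_eq k α] at hl hh
    have hx : 0 ≤ T * predicted k α T := by
      rw [predicted_eq k α]
      positivity
    have hg := hgood k α (fun _ => 1)
    simp only [mul_one] at hg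
    rw [hg]
    constructor
    · have m1 := hd.low n k α hn hk hα 1 (by exact_mod_cast h1δ) b1 hb1s
      simp only [hdp1, norm_one, one_pow, mul_one] at m1
      rw [← he, ← hM] at m1
      have hN2' : N2 M (cv e b1) = N2 M e := by rw [← hN2, mul_one]
      rw [hN2'] at m1
      refine le_trans ?_ m1
      calc min (c / 2) (c ^ 2) * (T * predicted k α T)
          ≤ c ^ 2 * (T * predicted k α T) := mul_le_mul_of_nonneg_right (min_le_right _ _) hx
        _ = c * (T * (c * predicted k α T)) := by ring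
        _ ≤ _ := by gcongr
    · have m2 := hd.upp n k α hk 1 (by exact_mod_cast h1δ) b1 hb1s
      simp only [hdp1, norm_one, one_pow, mul_one] at m2
      rw [← he, ← hM] at m2
      have hN2' : N2 M (cv e b1) = N2 M e := by rw [← hN2, mul_one]
      rw [hN2'] at m2
      refine m2.trans ?_
      calc C * (T * N2 M e) ≤ C * (T * (C * predicted k α T)) := by gcongr
        _ = C ^ 2 * (T * predicted k α T) := by ring
        _ ≤ _ := mul_le_mul_of_nonneg_right (le_max_right _ _) hx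
  refine ⟨G, GGD_meas hz δ κ A W T, fun t ht => ⟨ht.1.1.1, zt_exp ht.2 ht.1.1.1, ?_⟩, ?_, ?_, ?_, ?_⟩
  · have h1 : |Real.log ‖zt t‖ - EP ⌊T ^ δ⌋₊ t| ≤ W := ht.1.1.2.1
    have h2 : |az t - EA ⌊T ^ δ⌋₊ t| ≤ W := ht.1.2
    have h3 : (logZ t - eulerLog ⌊T ^ δ⌋₊ t).re = Real.log ‖zt t‖ - EP ⌊T ^ δ⌋₊ t := by
      rw [Complex.sub_re, eulerLog_eq, LE_re]
      unfold logZ
      simp
      rfl
    have h4 : (logZ t - eulerLog ⌊T ^ δ⌋₊ t).im = az t - EA ⌊T ^ δ⌋₊ t := by
      rw [Complex.sub_im, eulerLog_eq, LE_im]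
      unfold logZ
      simp
      rfl
    refine (Complex.norm_le_abs_re_add_abs_im _).trans ?_
    rw [h3, h4]
    linarith
  · intro α N b hα hN
    have e1 : ∫ t in {t : ℝ | t ∈ Set.Icc T (2 * T) ∧ t + α ∉ G}, ‖D N b t‖ ^ 2 =
        ∫ t in Set.Ioc T (2 * T) ∩ {t : ℝ | t + α ∉ GGC δ κ A W T}, ‖D N b t‖ ^ 2 := by
      refine setIntegral_congr_set ?_
      have h1 : (Set.Icc T (2 * T) : Set ℝ) =ᵐ[volume] Set.Ioc T (2 * T) := Ioc_ae_eq_Icc.symm
      exact h1.inter (shift_ae (GGD_ae δ κ A W T) α).compl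
    rw [e1]
    simp only [D_cut]
    refine (hd.neg α hα N hN (cut N b) (cut_supp N b)).trans ?_
    obtain ⟨v1, -⟩ := Pool.Agent.Q84.UM.t_MVL T hT N (hN.trans hTδ) (cut N b)
    calc ε / 2 * (T * N2 N (cut N b)) = ε * (T / 2 * N2 N (cut N b)) := by ring
      _ ≤ _ := mul_le_mul_of_nonneg_left v1 hε.le
  · intro k α hk hα
    obtain ⟨h1, h2⟩ := hmom 1 (fun _ => k) (fun _ => α) (by exact_mod_cast hA) (by simpa using hk) (fun _ => hα)
    have e1 : good G T (fun _ : Fin 1 => α) = {t : ℝ | t ∈ Set.Icc T (2 * T) ∧ t + α ∈ G} := by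
      unfold good
      ext t
      simp
    have e2 : ∀ t, power (fun _ : Fin 1 => k) (fun _ => α) t = cexp (k * logZ (t + α)) := by
      intro t
      unfold power
      simp
    rw [e1] at h1 h2
    simp only [e2] at h1 h2
    have e3 : predicted (fun _ : Fin 1 => k) (fun _ => α) T =
        Real.exp (‖k‖ ^ 2 * ∑ p ∈ (Finset.Icc 1 ⌊T⌋₊).filter Nat.Prime, (1 : ℝ) / p) := by
      unfold predicted
      congr 1
      rw [Finset.mul_sum]
      refine Finset.sum_congr rfl fun p hp => ?_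
      have hp0 := (Finset.mem_filter.1 hp).2.pos
      rw [Fin.sum_univ_one, norm_mul, Complex.norm_natCast_cpow_of_pos hp0]
      simp
      ring
    have e4 : Real.log T ^ (‖k‖ ^ 2) = Real.exp (‖k‖ ^ 2 * Real.log (Real.log T)) := by
      rw [Real.rpow_def_of_pos hL, mul_comm]
    have hk2 : ‖k‖ ^ 2 ≤ A ^ 2 := pow_le_pow_left₀ (norm_nonneg _) hk 2
    have hm := abs_le.1 hmert
    set P := ∑ p ∈ (Finset.Icc 1 ⌊T⌋₊).filter Nat.Prime, (1 : ℝ) / p with hP
    have h5 : Real.log T ^ (‖k‖ ^ 2) ≤ K * predicted (fun _ : Fin 1 => k) (fun _ => α) T := by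
      rw [e3, e4, hK, ← Real.exp_add]
      apply Real.exp_le_exp.2
      have h6 : ‖k‖ ^ 2 * (Real.log (Real.log T) - P) ≤ ‖k‖ ^ 2 * C₅ :=
        mul_le_mul_of_nonneg_left (by linarith [hm.1]) (by positivity)
      have h7 : ‖k‖ ^ 2 * C₅ ≤ A ^ 2 * C₅ := mul_le_mul_of_nonneg_right hk2 hC₅
      linarith
    have h5' : predicted (fun _ : Fin 1 => k) (fun _ => α) T ≤ K * Real.log T ^ (‖k‖ ^ 2) := by
      rw [e3, e4, hK, ← Real.exp_add]
      apply Real.exp_le_exp.2
      have h6 : ‖k‖ ^ 2 * (P - Real.log (Real.log T)) ≤ ‖k‖ ^ 2 * C₅ :=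
        mul_le_mul_of_nonneg_left (by linarith [hm.2]) (by positivity)
      have h7 : ‖k‖ ^ 2 * C₅ ≤ A ^ 2 * C₅ := mul_le_mul_of_nonneg_right hk2 hC₅
      linarith
    constructor
    · refine le_trans ?_ h1
      rw [div_mul_eq_mul_div, div_le_iff₀ hK0, mul_assoc (min (c / 2) (c ^ 2))]
      refine mul_le_mul_of_nonneg_left ?_ hmin0.le
      calc T * Real.log T ^ (‖k‖ ^ 2) ≤ T * (K * predicted (fun _ : Fin 1 => k) (fun _ => α) T) :=
            mul_le_mul_of_nonneg_left h5 hT0.le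
        _ = _ := by ring
    · refine h2.trans ?_
      rw [mul_assoc (max (2 * C) (C ^ 2))]
      refine mul_le_mul_of_nonneg_left ?_ hmax0.le
      calc T * predicted (fun _ : Fin 1 => k) (fun _ => α) T ≤ T * (K * Real.log T ^ (‖k‖ ^ 2)) :=
            mul_le_mul_of_nonneg_left h5' hT0.le
        _ = _ := by ring
  · intro n k α hn hk hα
    obtain ⟨h1, h2⟩ := hmom n k α hn hk hα
    have hx : 0 ≤ T * predicted k α T := by
      rw [predicted_eq k α]
      positivity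
    exact ⟨(mul_le_mul_of_nonneg_right hminK hx).trans h1, h2.trans (mul_le_mul_of_nonneg_right hmaxK hx)⟩
  · intro n k α hn hk hα
    set e : ℕ → ℂ := ecc δ κ T k α with he
    have hes := hd.supp n k α
    rw [← he, ← hM] at hes
    obtain ⟨hl, hh⟩ := hd.ord n k α hk
    rw [← he, ← hM, ← predicted_eq k α] at hl hh
    have hpp : 0 ≤ predicted k α T := by
      rw [predicted_eq k α]
      positivity
    refine ⟨M, e, hM8, ?_, ?_, fun N b hN => ?_⟩
    · rw [norm2_cut, cut_self hes]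
      refine le_trans (mul_le_mul_of_nonneg_right (hminK.trans (min_le_left _ _)) hpp) (le_trans ?_ hl)
      nlinarith
    · rw [norm2_cut, cut_self hes]
      refine hh.trans (mul_le_mul_of_nonneg_right ?_ hpp)
      refine le_trans ?_ hmaxK
      exact le_trans (by linarith) (le_max_left _ _)
    · have hFeq : ∀ t, ‖D M e t‖ ^ 2 * ‖D N b t‖ ^ 2 = ‖dp (M * N) (cv e (cut N b)) t‖ ^ 2 := fun t => by
        rw [D_cut, D_cut, cut_self hes, ← Pool.Agent.Q84.UM.t_DPM.1 M N e (cut N b) t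
          (Pool.Agent.Q98.UM.supp_zero hes) (Pool.Agent.Q98.UM.supp_zero (cut_supp N b)), norm_mul, mul_pow]
      have hMN : ((M * N : ℕ) : ℝ) ≤ T ^ (1 / 4 : ℝ) := by
        push_cast
        calc (M : ℝ) * N ≤ T ^ (1 / 8 : ℝ) * T ^ δ := mul_le_mul hM8 hN (Nat.cast_nonneg _) (by positivity)
          _ = T ^ (1 / 8 + δ) := by rw [← Real.rpow_add hT0]
          _ ≤ _ := Real.rpow_le_rpow_of_exponent_le hT1 (by nlinarith)
      obtain ⟨v1, v2⟩ := Pool.Agent.Q84.UM.t_MVL T hT (M * N) hMN (cv e (cut N b))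
      set I₀ := ∫ t in T..(2 * T), ‖dp (M * N) (cv e (cut N b)) t‖ ^ 2 with hI₀
      set n2 := N2 (M * N) (cv e (cut N b)) with hn2
      have hI0 : 0 ≤ I₀ := intervalIntegral.integral_nonneg (by linarith) fun t _ => by positivity
      have eI : ∫ t in T..(2 * T), ‖D M e t‖ ^ 2 * ‖D N b t‖ ^ 2 = I₀ := by
        simp only [hFeq, hI₀]
      have hDz : ∀ t, ‖D N b t‖ = ‖dp N (cut N b) t‖ := fun t => by rw [D_cut]
      rw [eI]
      simp only [hDz]
      rw [hgood k α (fun t => ‖dp N (cut N b) t‖ ^ 2)]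
      constructor
      · have m1 := hd.low n k α hn hk hα N hN (cut N b) (cut_supp N b)
        rw [← he, ← hM] at m1
        refine le_trans ?_ m1
        calc min (c / 2) (c ^ 2) / K * I₀ ≤ c / 2 * (2 * T * n2) :=
              mul_le_mul (hminK.trans (min_le_left _ _)) v2 hI0 (by positivity)
          _ = _ := by ring
      · have m2 := hd.upp n k α hk N hN (cut N b) (cut_supp N b)
        rw [← he, ← hM] at m2
        refine m2.trans ?_
        calc C * (T * n2) = 2 * C * (T / 2 * n2) := by ring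
          _ ≤ max (2 * C) (C ^ 2) * K * I₀ := by
              refine mul_le_mul ((le_max_left _ _).trans hmaxK) v1 ?_ (by positivity)
              exact mul_nonneg (by positivity) (Pool.Agent.Q98.UM.N2_nonneg _ _)

end Pool.Agent.Results.MP_973905_nt.ComplexOrdersEveryWeight
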