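import Pool.Agent.Run7.h291.WC.B7
import Pool.Agent.Run7.h291.WC.Supw
import Pool.Agent.Run7.h651.WN.LAW
import Pool.Agent.Run7.h42.WN_MNB
import Pool.Agent.Run7.h772.WN_ZML

set_option autoImplicit false

/-!
# The moments of zeta in critical windows near the critical line

Let `k > 1` be real. At distance `δ` from the critical line the mean value of `|ζ(1/2 + δ + iu)|^(2k)` over the window
`[t, t + H]` undergoes a transition at the length `H = δ^(-(k² - 1))`. For a window of length
`H = δ^(-(k² - 1)) exp (k x √(2 log (1/δ)))` it is, for almost all `t ∈ [0, T]`, asymptotically `Φ(x)` times the predicted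
moment `a(k) (2δ)^(-k²)`, with `Φ` the distribution function of the normal law; and outside the transition (`|x| ≥ A`) this
holds for almost all `t` for all windows of length up to `δ^(-D)` at once.

Plan, statements, the proof of the transition and the assembly by helper291; the law of the normalised logarithms under the
measures with the weight `∏ |ζ|^(2k)` (`S_LAW`) and the continuity of the arithmetic factor (`S_EQC`) by helper651; the mean
of the two-point function over long intervals (`S_MNB`) and the argument for large values in windows (`S_SUPW`) by helper42;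
the moments of zeta without small primes near the line `1` (`S_ZML`) by helper772; the maximal inequality is by helper311;
the joint moments outside tiny sets are the starting library `N748/MJ`.
-/

namespace Pool.Agent.Results.MP_973905_nt.CriticalWindows

open MeasureTheory Filter Topology

/-- the arithmetic factor of the moment conjecture,
`a(k) = ∏_p (1 - 1/p)^(k²) ∑_m (k (k+1) ... (k+m-1) / m!)² p^(-m)` -/
noncomputable def ak (k : ℝ) : ℝ :=
  ∏' p : Nat.Primes, ((1 - 1 / (p : ℝ)) ^ (k ^ 2) *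
    ∑' m : ℕ, (∏ i ∈ Finset.range m, (k + i) / ((i : ℝ) + 1)) ^ 2 * (1 / (p : ℝ)) ^ m)

/-- the modulus of zeta at distance `δ` from the critical line and height `u` -/
noncomputable def z (δ u : ℝ) : ℝ := ‖riemannZeta (1 / 2 + δ + u * Complex.I)‖

/-- the mean of `|ζ|^(2k)` over the window `[t, t + H]` -/
noncomputable def M (k δ t H : ℝ) : ℝ := (1 / H) * ∫ u in Set.Icc t (t + H), z δ u ^ (2 * k)

/-- the prediction -/
noncomputable def P (k δ : ℝ) : ℝ := ak k * (2 * δ) ^ (-(k ^ 2))

/-- the distribution function of the standard normal law -/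
noncomputable def Phi (x : ℝ) : ℝ := (ProbabilityTheory.gaussianReal 0 1).real (Set.Iic x)

/-- the position of the length `H` in the transition: `H = δ^(-(k² - 1)) exp (k x √(2 log (1/δ)))` for `x = pos k δ H` -/
noncomputable def pos (k δ H : ℝ) : ℝ := Real.log (H * δ ^ (k ^ 2 - 1)) / (k * Real.sqrt (2 * Real.log (1 / δ)))

open Run7.h291.WN Pool.Agent.N748.MG

lemma conv {k δ : ℝ} (hδ : 0 < δ) (I : ℝ) : I / P k δ = (2 * δ) ^ (k ^ 2) / akR k * I := by
  have h1 : P k δ = akR k * (2 * δ) ^ (-(k ^ 2)) := rfl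
  have h2 := akp k
  have h3 : (0:ℝ) < (2 * δ) ^ (k ^ 2) := Real.rpow_pos_of_pos (by linarith) _
  rw [h1, Real.rpow_neg (by linarith)]
  field_simp

lemma convM {k δ t H : ℝ} (hδ : 0 < δ) (hH : 0 < H) :
    M k δ t H / P k δ = (1 / H) * (∫ u in t..(t + H), Zk k δ u) := by
  rw [conv hδ, intervalIntegral.integral_of_le (by linarith), ← integral_Icc_eq_integral_Ioc]
  unfold M Zk
  rw [integral_const_mul]
  unfold z mz pw
  ring

lemma pos_eq {k δ H : ℝ} : Run7.h291.WC.pos k δ H = pos k δ H := by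
  unfold Run7.h291.WC.pos pos Run7.h291.WC.sg
  have h4 : 2 * Real.log (1 / δ) = 2 ^ 2 * (Real.log (1 / δ) / 2) := by ring
  rw [h4, Real.sqrt_mul (by norm_num), Real.sqrt_sq (by norm_num)]
  congr 1
  ring

theorem result (k D : ℝ) (hk : 1 < k) (ε : ℝ) (hε : 0 < ε) :
    0 < ak k ∧ ∃ A lam δ0 : ℝ, 0 < lam ∧ 0 < δ0 ∧ δ0 ≤ 1 / 16 ∧ ∀ᶠ T : ℝ in atTop, ∀ δ : ℝ, 0 < δ → δ ≤ δ0 →
      lam * Real.log (1 / δ) ^ 2 ≤ δ * Real.log T →
      (∀ H : ℝ, 0 < H → H ≤ δ ^ (-D) →
        volume {t : ℝ | t ∈ Set.Icc 0 T ∧ ¬ |M k δ t H / P k δ - Phi (pos k δ H)| < ε} ≤ ENNReal.ofReal (ε * T)) ∧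
      volume {t : ℝ | t ∈ Set.Icc 0 T ∧ ¬ ∀ H : ℝ, 0 < H → H ≤ δ ^ (-D) →
        (A ≤ pos k δ H → |M k δ t H / P k δ - 1| < ε) ∧ (pos k δ H ≤ -A → M k δ t H / P k δ < ε)} ≤
          ENNReal.ofReal (ε * T) := by
  have hM := Run7.h42.WN.mnb Run7.h772.zml
  have hL := Run7.h651.WN.law
  have hS := Run7.h291.WC.supw
  refine ⟨akp k, ?_⟩
  have h1 := Run7.h291.WC.crit_a hM hL hS k (max D 0) hk (le_max_right _ _) ε hε
  obtain ⟨A, h2⟩ := Run7.h291.WC.crit_b hM hL hS k (max D 0) hk (le_max_right _ _) ε hε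
  refine ⟨A, (h1.and h2).mono ?_⟩
  rintro T δ hT hδ hδ1 ⟨h1, h2⟩
  have hDD : ∀ H : ℝ, H ≤ δ ^ (-D) → H ≤ δ ^ (-(max D 0)) := fun H hH =>
    hH.trans (Real.rpow_le_rpow_of_exponent_ge hδ (by linarith) (neg_le_neg (le_max_left _ _)))
  constructor
  · intro H hH0 hH
    refine le_trans (measure_mono ?_) (h1 H hH0 (hDD H hH))
    rintro t ⟨⟨t0, t1⟩, ht⟩
    rw [not_lt, convM hδ hH0] at ht
    refine ⟨t0, t1, ?_⟩
    rw [pos_eq]
    exact ht
  · refine le_trans (measure_mono ?_) h2
    rintro t ⟨⟨t0, t1⟩, ht⟩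
    push Not at ht
    obtain ⟨H, hH0, hH, ht⟩ := ht
    refine ⟨t0, t1, H, hH0, hDD H hH, ?_⟩
    rw [pos_eq]
    rw [convM hδ hH0] at ht
    by_cases hc : A ≤ pos k δ H ∧ ε ≤ |(1 / H) * (∫ u in t..(t + H), Zk k δ u) - 1|
    · exact Or.inl hc
    · right
      refine ht fun hA => ?_
      by_contra hcon
      rw [not_lt] at hcon
      exact hc ⟨hA, hcon⟩

end Pool.Agent.Results.MP_973905_nt.CriticalWindows
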