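import Pool.Agent.Run7.h42.LB.Fin3
import Pool.Agent.N748.MJ.Fin

set_option autoImplicit false

/-!
# MP_973905_nt: the landscape of zeta around the points of an exact height, near the critical line

Let `d = d(T) → 0` with `d log T / log² (1/d) → ∞`, `L = log (1/(2d))`, `a_1, ..., a_m` real numbers and
`X_j(t) = log |ζ(1/2 + d + i(t + d a_j))|`. The points `t + d a_j` are at the distance where the values of zeta are
strongly correlated. Fix an index `i` and a real number `V` and put `s(j, l) = log (1 + (a_j - a_l)²/4) / 2`.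

* For every test function `g` (continuous outside a finite set) and every bounded function `F` on `ℝ^m`
  `√(π L) (2d)^(-V²) (1/T) ∫_0^T g(X_i - V L) F((X_j - X_i)_j) dt → a(V) ∫ exp (- 2 V x) g(x) dx ∫ F dρ`,
  with the arithmetic factor `a(V)` of the moment of order `2V` and the Gaussian law `ρ` with the means `- V s(j, i)` and the
  covariances `(s(j, i) + s(l, i) - s(j, l)) / 2`.
* So for `V > 0` the differences `X_j - X_i`, given `|ζ(1/2 + d + i(t + d a_i))| > (2d)^(-V)`, have the law `ρ` in the limit,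
  and they are independent of the excess `X_i - V L`, which has the exponential law with the parameter `2V`; the same with
  the opposite inequality for `V < 0`.
-/

namespace Pool.Agent.Results.MP_973905_nt.LandscapeAtALevel

open MeasureTheory Filter Topology Complex ProbabilityTheory

noncomputable section

variable {m : ℕ}

/-- The arithmetic factor `∏_p (1 - 1/p)^(k²) ∑_n (k (k+1) ... (k+n-1) / n!)² p^(-n)`. -/
def ak (k : ℝ) : ℝ :=
  ∏' p : Nat.Primes, ((1 - 1 / (p : ℝ)) ^ (k ^ 2) *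
    ∑' n : ℕ, (∏ i ∈ Finset.range n, (k + i) / ((i : ℝ) + 1)) ^ 2 * (1 / (p : ℝ)) ^ n)

/-- `log (1 / (2δ))`. -/
def L (δ : ℝ) : ℝ := Real.log (1 / (2 * δ))

/-- `log |ζ(1/2 + δ + i (t + δ a j))|`. -/
def X (δ : ℝ) (a : Fin m → ℝ) (t : ℝ) (j : Fin m) : ℝ :=
  Real.log ‖riemannZeta (1 / 2 + δ + (t + δ * a j) * I)‖

/-- The differences `X_j - X_i`. -/
def Y (δ : ℝ) (a : Fin m → ℝ) (i : Fin m) (t : ℝ) : EuclideanSpace ℝ (Fin m) :=
  WithLp.toLp 2 fun j => X δ a t j - X δ a t i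

/-- `log (1 + (a j - a l)² / 4) / 2`. -/
def s (a : Fin m → ℝ) (j l : Fin m) : ℝ := 1 / 2 * Real.log (1 + ((a j - a l) / 2) ^ 2)

/-- The covariances. -/
def Cov (a : Fin m → ℝ) (i : Fin m) : Matrix (Fin m) (Fin m) ℝ :=
  Matrix.of fun j l => (s a j i + s a l i - s a j l) / 2

/-- The Gaussian law. -/
def rho (a : Fin m → ℝ) (i : Fin m) (V : ℝ) : Measure (EuclideanSpace ℝ (Fin m)) :=
  multivariateGaussian (WithLp.toLp 2 fun j => -(V * s a j i)) (Cov a i)

/-- The admissible distances to the critical line. -/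
def Admissible (d : ℝ → ℝ) : Prop :=
  (∀ᶠ T : ℝ in atTop, 0 < d T) ∧ Tendsto d atTop (𝓝 0) ∧
    Tendsto (fun T : ℝ => d T * Real.log T / Real.log (1 / d T) ^ 2) atTop atTop

/-- The landscape of zeta around the points of an exact height. -/
theorem result (m : ℕ) (d : ℝ → ℝ) (hd : Admissible d) (a : Fin m → ℝ) (i : Fin m) :
    (Cov a i).PosSemidef ∧ (∀ V : ℝ, 0 < ak V) ∧
    -- the joint law of the value and of the landscape at the level `V`
    (∀ (V : ℝ) (g : ℝ → ℝ) (S : Finset ℝ) (F : EuclideanSpace ℝ (Fin m) → ℝ) (M : ℝ), Measurable g →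
      (∀ x, x ∉ S → ContinuousAt g x) → (∀ x, |g x| ≤ M) → (∀ x, |g x| * (1 + x ^ 2) ≤ M * Real.exp (2 * V * x)) →
      Measurable F → (∀ y, |F y| ≤ M) → (∀ᵐ y ∂(rho a i V), ContinuousAt F y) →
      Tendsto (fun T : ℝ => Real.sqrt (Real.pi * L (d T)) * (2 * d T) ^ (-(V ^ 2)) *
        ((1 / T) * ∫ t in (0:ℝ)..T, g (X (d T) a t i - V * L (d T)) * F (Y (d T) a i t)))
        atTop (𝓝 (ak V * ((∫ x, Real.exp (-(2 * V * x)) * g x) * ∫ y, F y ∂(rho a i V))))) ∧
    -- the conditional law beyond the level `V`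
    (∀ (V b : ℝ) (F : EuclideanSpace ℝ (Fin m) → ℝ) (M : ℝ), V ≠ 0 →
      Measurable F → (∀ y, |F y| ≤ M) → (∀ᵐ y ∂(rho a i V), ContinuousAt F y) →
      Tendsto (fun T : ℝ =>
        (∫ t in {t : ℝ | 0 ≤ t ∧ t ≤ T ∧ 0 < V * (X (d T) a t i - V * L (d T) + b)}, F (Y (d T) a i t)) /
          (volume {t : ℝ | 0 ≤ t ∧ t ≤ T ∧ 0 < V * (X (d T) a t i - V * L (d T))}).toReal)
        atTop (𝓝 (Real.exp (2 * V * b) * ∫ y, F y ∂(rho a i V)))) := by
  have hZ := Pool.Agent.N748.MJ.LZB.main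
  have hJ := Pool.Agent.N748.MJ.jmF
  have hP := Pool.Agent.N748.MJ.posF
  have hC := Pool.Agent.N748.MJ.conF
  have hA := Pool.Agent.N748.MJ.av0F
  have hAd : Pool.Agent.N748.MG.Ad d := ⟨hd.1, hd.2.1, hd.2.2⟩
  have hX : ∀ (δ V t : ℝ) (j : Fin m), Run7.h42.LB.Xt δ (Run7.h42.LB.sh a δ) V t j = X δ a t j - V * L δ := by
    intro δ V t j
    unfold Run7.h42.LB.Xt Run7.h42.LB.sh X L Run7.h42.LP.LL Pool.Agent.N748.MG.mz Pool.Agent.N748.MG.pw
    push_cast
    rfl
  have hY : ∀ (δ V t : ℝ), Run7.h42.LP.tl (Run7.h42.LB.sb i (Run7.h42.LB.Xt δ (Run7.h42.LB.sh a δ) V t)) = Y δ a i t := by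
    intro δ V t
    unfold Run7.h42.LP.tl Y Run7.h42.LB.sb
    congr 1
    funext j
    rw [hX, hX]
    ring
  refine ⟨(Run7.h42.LB.landscape hJ hP hZ hC hA hAd a i 0).1, fun V => (Pool.Agent.N748.MG.aC_akR V).1, ?_, ?_⟩
  · intro V g S F M hg hgc hM hM2 hF hB hFc
    have h := (Run7.h42.LB.landscape hJ hP hZ hC hA hAd a i V).2 g S F M M hg hgc hM hM2 hF hB hFc
    simp only [hX, hY] at h
    exact h
  · intro V b F M hV hF hB hFc
    have h := Run7.h42.LB.cond hJ hP hZ hC hA hAd a i hV b F M hF hB hFc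
    simp only [hX, hY] at h
    exact h

end

end Pool.Agent.Results.MP_973905_nt.LandscapeAtALevel
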