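import Pool.Agent.Run7.h290.PH.J

set_option autoImplicit false

/-!
# MP_973905_nt: the phase of zeta under the moment measures near the critical line

Let `δ(T) → 0`, `δ(T) log T → ∞`, `ℓ = log (1 / (2δ))`, `s = 1/2 + δ + it` and `X = (log |ζ(s)| - (β/2) ℓ) / √(ℓ/2)`.

* Let `0 < β ≤ 4`, let `h, k` be coprime positive integers and let `F` be a continuous function on `ℝ × ℂ` which is bounded on
  `ℝ × {|w| ≤ 1}` (or, if `β < 4`, at most `A exp (A |x|)` there). Then
  `(2δ)^(β²/4) (1/T) ∫_0^T |ζ(s)|^β F(X, ζ(s)/|ζ(s)|) (k/h)^(it) dt → a(β/2) c(β/2, h, k) E F(N, w)`,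
  where `N` is a standard normal variable, `w` is a uniform point of the unit circle, and `N`, `w` are independent. So under
  the measure `|ζ(s)|^β dt` the phase of `ζ(s)` is uniformly distributed in the limit, and independent of the modulus and of
  the `p^(it)`.
* In particular the share of `∫_0^T |ζ(s)|^β dt` which comes from the `t` with `(X, ζ(s)/|ζ(s)|) ∈ B` tends to the
  probability of `(N, w) ∈ B`, for all Borel sets `B` whose boundary has probability zero (for instance for sectors), and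
  the moments of `Re ζ(s)` are asymptotic to `E |Re w|^β` times the moments of `|ζ(s)|`.
* For all real orders `β > 0` the limit law holds outside of one set `E(T) ⊆ [0, T]`, which does not depend on `β, h, k, F`,
  has measure `o(T δ^4)`, and on which `|ζ(s)| > δ^(-2)`; more generally `o(T δ^(4+4κ))` and `δ^(-2-κ)`, for all `κ ≥ 0`
  and all orders `β ≤ 4` and `β ≥ 4 + 4κ`.
-/

open Filter Topology MeasureTheory ProbabilityTheory

namespace Pool.Agent.Results.MP_973905_nt.PhaseEquidistribution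

/-- the coefficients `Γ(κ + m) / (Γ(κ) m!)` of `(1 - x)^(-κ)` -/
noncomputable def dd (κ : ℝ) (m : ℕ) : ℝ := Real.Gamma (κ + m) / (Real.Gamma κ * (m.factorial : ℝ))

/-- the arithmetic factor of the moment conjecture for `|ζ|^(2κ)` -/
noncomputable def ak (κ : ℝ) : ℝ :=
  ∏' p : Nat.Primes, ((1 - 1 / (p : ℝ)) ^ (κ ^ 2) * ∑' m : ℕ, dd κ m ^ 2 / (p : ℝ) ^ m)

/-- the coefficient `c(κ, h, k)`: the product over the primes `p` dividing `h k`, with `c` the exponent of `p` in `h k`,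
of `(∑_i d(i) d(i + c) p^(-i-c/2)) / ∑_i d(i)² p^(-i)` -/
noncomputable def coef (κ : ℝ) (h k : ℕ) : ℝ :=
  ∏ p ∈ (h * k).primeFactors, Real.sqrt p ^ ((h * k).factorization p) *
    (∑' i : ℕ, dd κ i * dd κ (i + (h * k).factorization p) * (1 / (p : ℝ)) ^ (i + (h * k).factorization p)) /
      ∑' i : ℕ, dd κ i ^ 2 * (1 / (p : ℝ)) ^ i

/-- `ζ(1/2 + δ + it)` -/
noncomputable def z (δ t : ℝ) : ℂ := riemannZeta (1 / 2 + δ + Complex.I * (t : ℂ))

/-- the normalised logarithm of the modulus -/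
noncomputable def X (β δ t : ℝ) : ℝ :=
  (Real.log ‖z δ t‖ - β / 2 * Real.log (1 / (2 * δ))) / Real.sqrt (Real.log (1 / (2 * δ)) / 2)

/-- the phase (zero at the zeros of zeta) -/
noncomputable def phase (δ t : ℝ) : ℂ := z δ t / (‖z δ t‖ : ℂ)

/-- the uniform law on the unit circle: the law of `exp (iθ)`, with `θ` uniform in `(0, 2π]` -/
noncomputable def circ : Measure ℂ :=
  ENNReal.ofReal (1 / (2 * Real.pi)) • (volume.restrict (Set.Ioc 0 (2 * Real.pi))).map fun θ : ℝ => Complex.exp (Complex.I * (θ : ℂ))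

/-- the law of a pair of independent variables: a standard normal one and a uniform point of the unit circle -/
noncomputable def law : Measure (ℝ × ℂ) := (gaussianReal 0 1).prod circ

/-- `(2δ)^(β²/4) (1/T) ∫_S |ζ|^β F(X, phase) (k/h)^(it) dt` -/
noncomputable def mean (β δ : ℝ) (h k : ℕ) (F : ℝ × ℂ → ℂ) (T : ℝ) (S : Set ℝ) : ℂ :=
  (((2 * δ) ^ (β ^ 2 / 4) * (1 / T) : ℝ) : ℂ) * ∫ t in S,
    ((‖z δ t‖ ^ β : ℝ) : ℂ) * F (X β δ t, phase δ t) * Complex.exp (Complex.I * (t : ℂ) * ((Real.log k - Real.log h : ℝ) : ℂ))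

theorem result (δ : ℝ → ℝ) (hδ : Tendsto δ atTop (𝓝 0)) (hδL : Tendsto (fun T : ℝ => δ T * Real.log T) atTop atTop) :
    (∀ β : ℝ, 0 < β → β ≤ 4 → 0 < ak (β / 2) ∧
      (∀ h k : ℕ, 0 < h → 0 < k → h.Coprime k → ∀ F : ℝ × ℂ → ℂ, Continuous F →
        ((∃ A : ℝ, ∀ (x : ℝ) (w : ℂ), ‖w‖ ≤ 1 → ‖F (x, w)‖ ≤ A) ∨
          (β < 4 ∧ ∃ A : ℝ, ∀ (x : ℝ) (w : ℂ), ‖w‖ ≤ 1 → ‖F (x, w)‖ ≤ A * Real.exp (A * |x|))) →
        Tendsto (fun T => mean β (δ T) h k F T (Set.Icc 0 T)) atTop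
          (𝓝 (((ak (β / 2) * coef (β / 2) h k : ℝ) : ℂ) * ∫ q, F q ∂law))) ∧
      (∀ B : Set (ℝ × ℂ), MeasurableSet B → law (frontier B) = 0 →
        Tendsto (fun T : ℝ => (∫ t in Set.Icc 0 T ∩ {t | (X β (δ T) t, phase (δ T) t) ∈ B}, ‖z (δ T) t‖ ^ β) /
          ∫ t in Set.Icc 0 T, ‖z (δ T) t‖ ^ β) atTop (𝓝 (law.real B))) ∧
      Tendsto (fun T : ℝ => (∫ t in Set.Icc 0 T, |(z (δ T) t).re| ^ β) / ∫ t in Set.Icc 0 T, ‖z (δ T) t‖ ^ β) atTop
        (𝓝 (∫ w, |w.re| ^ β ∂circ))) ∧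
    ∀ κ : ℝ, 0 ≤ κ → ∃ E : ℝ → Set ℝ,
      (∀ T, MeasurableSet (E T) ∧ E T ⊆ Set.Icc 0 T ∧ ∀ t ∈ E T, (δ T) ^ (-(2 + κ)) < ‖z (δ T) t‖) ∧
      Tendsto (fun T => (volume (E T)).toReal / (T * (δ T) ^ (4 + 4 * κ))) atTop (𝓝 0) ∧
      ∀ β : ℝ, 0 < β → (β ≤ 4 ∨ 4 + 4 * κ ≤ β) → ∀ h k : ℕ, 0 < h → 0 < k → h.Coprime k →
        ∀ F : ℝ × ℂ → ℂ, Continuous F → (∃ A : ℝ, ∀ (x : ℝ) (w : ℂ), ‖w‖ ≤ 1 → ‖F (x, w)‖ ≤ A) →
        Tendsto (fun T => mean β (δ T) h k F T (Set.Icc 0 T \ E T)) atTop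
          (𝓝 (((ak (β / 2) * coef (β / 2) h k : ℝ) : ℂ) * ∫ q, F q ∂law)) := by
  have e1 : ∀ k : ℝ, 0 < k → ∀ m : ℕ, dd k m = Pool.Agent.H306R2.lc k m := by
    intro k hk m
    unfold dd
    have hG : Real.Gamma k ≠ 0 := (Real.Gamma_pos_of_pos hk).ne'
    induction m with
    | zero =>
      unfold Pool.Agent.H306R2.lc
      simp [hG]
    | succ m ih =>
      have h1 : Pool.Agent.H306R2.lc k (m + 1) = Pool.Agent.H306R2.lc k m * ((k + m) / ((m : ℝ) + 1)) := by
        unfold Pool.Agent.H306R2.lc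
        rw [Finset.prod_range_succ]
      have hkm : k + (m : ℝ) ≠ 0 := by positivity
      have h2 : Real.Gamma (k + ((m + 1 : ℕ) : ℝ)) = (k + m) * Real.Gamma (k + m) := by
        rw [← Real.Gamma_add_one hkm]
        congr 1
        push_cast
        ring
      have hf : (m.factorial : ℝ) ≠ 0 := by positivity
      rw [h1, ← ih, h2, Nat.factorial_succ]
      push_cast
      field_simp
  have e3 : ∀ k : ℝ, 0 < k → ak k = Pool.Agent.H306R2.aF k := by
    intro k hk
    unfold ak Pool.Agent.H306R2.aF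
    refine tprod_congr fun p => ?_
    simp_rw [e1 k hk, one_div, inv_pow, div_eq_mul_inv]
  have e4 : ∀ (κ : ℝ) (h k : ℕ), 0 < κ → coef κ h k = Pool.Agent.Y753.NL.Nu κ h k := by
    intro κ h k hκ
    unfold coef Pool.Agent.Y753.NL.Nu Pool.Agent.Y753.NL.nu
    simp_rw [e1 _ hκ]
  have e5 : ∀ T t : ℝ, Pool.Agent.W184.zn (1 / 2 + δ T) t = ‖z (δ T) t‖ := by
    intro T t
    unfold Pool.Agent.W184.zn z
    congr 2
    push_cast
    ring
  have ez : ∀ T t : ℝ, Pool.Agent.Run7.h290.PH.zs (δ T) t = z (δ T) t := by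
    intro T t
    unfold Pool.Agent.Run7.h290.PH.zs z
    rw [mul_comm (t : ℂ)]
  have ep : ∀ T t : ℝ, Pool.Agent.Run7.h290.PH.phs (δ T) t = phase (δ T) t := by
    intro T t
    unfold Pool.Agent.Run7.h290.PH.phs phase
    rw [ez]
  have e6 : ∀ T β : ℝ, (2 * δ T) ^ ((β / 2) ^ 2) = (2 * δ T) ^ (β ^ 2 / 4) := fun T β => by congr 1; ring
  have e7 : ∀ (h k : ℕ) (t : ℝ), Pool.Agent.Y753.NL.tw h k t =
      Complex.exp (Complex.I * (t : ℂ) * ((Real.log k - Real.log h : ℝ) : ℂ)) := by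
    intro h k t
    unfold Pool.Agent.Y753.NL.tw
    congr 1
    ring
  have e8 : ∀ β : ℝ, 2 * (β / 2) = β := fun β => by ring
  have eX : ∀ β T t : ℝ, Pool.Agent.R313.TW.XX (β / 2) (δ T) t = X β (δ T) t := by
    intro β T t
    unfold Pool.Agent.R313.TW.XX Pool.Agent.Y753.NL.ell Pool.Agent.Y753.NL.sg Pool.Agent.Y753.NL.ell X
    rw [e5]
  have eM : ∀ (β : ℝ) (h k : ℕ) (F : ℝ × ℂ → ℂ) (T : ℝ) (S : Set ℝ), (((2 * δ T) ^ ((β / 2) ^ 2) / T : ℝ) : ℂ) * ∫ t in S,
      ((Pool.Agent.W184.zn (1 / 2 + δ T) t ^ (2 * (β / 2)) : ℝ) : ℂ) *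
        (F (Pool.Agent.R313.TW.XX (β / 2) (δ T) t, Pool.Agent.Run7.h290.PH.phs (δ T) t) * Pool.Agent.Y753.NL.tw h k t) =
      mean β (δ T) h k F T S := by
    intro β h k F T S
    unfold mean
    rw [e6, mul_one_div]
    congr 1
    refine integral_congr_ae (Eventually.of_forall fun t => ?_)
    simp only
    rw [e5, e8, eX, ep, e7]
    ring
  have eL : ∀ F : ℝ × ℂ → ℂ, Continuous F → Pool.Agent.Run7.h290.PH.cm F = ∫ q, F q ∂law := by
    intro F hF
    rw [Pool.Agent.Run7.h290.PH.cm_law hF]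
    rfl
  have hlt : ∀ᶠ T in atTop, δ T < 1 / 2 := hδ.eventually (gt_mem_nhds (by norm_num))
  refine ⟨fun β hβ hβ4 => ?_, fun κ hκ => ?_⟩
  · have hβ2 : 0 < β / 2 := by positivity
    obtain ⟨_, _, _, hall⟩ := Pool.Agent.Run7.h290.PH.main_all hδ hδL (le_refl (0:ℝ))
    have hwhole : ∀ h k : ℕ, 0 < h → 0 < k → h.Coprime k → ∀ F : ℝ × ℂ → ℂ, Continuous F →
        ((∃ A : ℝ, ∀ (x : ℝ) (w : ℂ), ‖w‖ ≤ 1 → ‖F (x, w)‖ ≤ A) ∨
          (β < 4 ∧ ∃ A : ℝ, ∀ (x : ℝ) (w : ℂ), ‖w‖ ≤ 1 → ‖F (x, w)‖ ≤ A * Real.exp (A * |x|))) →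
        Tendsto (fun T => mean β (δ T) h k F T (Set.Icc 0 T)) atTop
          (𝓝 (((ak (β / 2) * coef (β / 2) h k : ℝ) : ℂ) * ∫ q, F q ∂law)) := by
      intro h k hh hk hc F hF hFA
      rw [e3 _ hβ2, e4 _ _ _ hβ2, ← eL F hF]
      rcases hFA with ⟨A, hA⟩ | ⟨hlt4, A, hA⟩
      · exact ((hall (β / 2) hβ2 h k hh.ne' hk.ne' hc F hF A (fun q hq => hA q.1 q.2 hq)).2 (by linarith)).congr fun T =>
          eM β h k F T _
      · exact (Pool.Agent.Run7.h290.PH.main_grow hδ hδL hβ2 (by linarith) hh.ne' hk.ne' hc hF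
          (fun q hq => hA q.1 q.2 hq)).congr fun T => eM β h k F T _
    have ha : 0 < ak (β / 2) := by rw [e3 _ hβ2]; exact Pool.Agent.H306R2.aF_pos hβ2
    have hzc : ∀ {T : ℝ}, δ T < 1 / 2 → Continuous fun t => ‖z (δ T) t‖ ^ β := by
      intro T hT
      have h1 := Pool.Agent.Y755.znp_cont (σ := 1 / 2 + δ T) (p := β) (by linarith) hβ.le
      refine h1.congr fun t => ?_
      rw [e5]
    have coef1 : coef (β / 2) 1 1 = 1 := by rw [e4 _ _ _ hβ2]; exact Pool.Agent.Y753.NL.Nu_one _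
    -- real test functions without twist
    have hreal : ∀ F : ℝ × ℂ → ℝ, Continuous F → (∃ A : ℝ, ∀ (x : ℝ) (w : ℂ), ‖w‖ ≤ 1 → |F (x, w)| ≤ A) →
        Tendsto (fun T => (2 * δ T) ^ (β ^ 2 / 4) * (1 / T) * ∫ t in Set.Icc 0 T, ‖z (δ T) t‖ ^ β *
          F (X β (δ T) t, phase (δ T) t)) atTop (𝓝 (ak (β / 2) * ∫ q, F q ∂law)) := by
      intro F hF ⟨A, hA⟩
      have h1 := hwhole 1 1 one_pos one_pos (Nat.coprime_one_left 1) (fun q => ((F q : ℝ) : ℂ)) (Complex.continuous_ofReal.comp hF)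
        (Or.inl ⟨A, fun x w hw => by rw [Complex.norm_real, Real.norm_eq_abs]; exact hA x w hw⟩)
      rw [integral_complex_ofReal, coef1, mul_one, ← Complex.ofReal_mul] at h1
      have h2 := (Complex.continuous_re.tendsto _).comp h1
      rw [Complex.ofReal_re] at h2
      refine h2.congr fun T => ?_
      simp only [Function.comp, mean]
      have e9 : ∫ t in Set.Icc 0 T, ((‖z (δ T) t‖ ^ β : ℝ) : ℂ) * ((F (X β (δ T) t, phase (δ T) t) : ℝ) : ℂ) *
          Complex.exp (Complex.I * (t : ℂ) * ((Real.log (1 : ℕ) - Real.log (1 : ℕ) : ℝ) : ℂ)) =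
          ((∫ t in Set.Icc 0 T, ‖z (δ T) t‖ ^ β * F (X β (δ T) t, phase (δ T) t) : ℝ) : ℂ) := by
        rw [← integral_complex_ofReal]
        refine integral_congr_ae (Eventually.of_forall fun t => ?_)
        simp only
        rw [sub_self, Complex.ofReal_zero, mul_zero, Complex.exp_zero, mul_one, Complex.ofReal_mul]
      rw [e9, ← Complex.ofReal_mul, Complex.ofReal_re]
    have hmass : Tendsto (fun T => (2 * δ T) ^ (β ^ 2 / 4) * (1 / T) * ∫ t in Set.Icc 0 T, ‖z (δ T) t‖ ^ β) atTop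
        (𝓝 (ak (β / 2))) := by
      have h1 := hreal (fun _ => 1) continuous_const ⟨1, fun _ _ _ => by simp⟩
      have : IsProbabilityMeasure law := (inferInstance : IsProbabilityMeasure Pool.Agent.Run7.h290.PH.law)
      simp only [mul_one, integral_const, smul_eq_mul, probReal_univ] at h1
      exact h1
    have hc0 : ∀ᶠ T in atTop, (2 * δ T) ^ (β ^ 2 / 4) * (1 / T) ≠ 0 := by
      filter_upwards [hmass.eventually (lt_mem_nhds ha)] with T hT h1
      rw [h1, zero_mul] at hT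
      exact lt_irrefl _ hT
    refine ⟨ha, hwhole, fun B hB hfr => ?_, ?_⟩
    · have h1 := Pool.Agent.Run7.h290.PH.weak_B (p := fun T t => |(2 * δ T) ^ (β ^ 2 / 4) * (1 / T)| * ‖z (δ T) t‖ ^ β)
        (V := fun T t => (X β (δ T) t, phase (δ T) t)) (ms := fun T => volume.restrict (Set.Icc 0 T)) (c := ak (β / 2)) (B := B)
        ?_ ha ?_ hB hfr
      · refine h1.congr' ?_
        filter_upwards [hc0, hlt] with T hT ht
        rw [integral_const_mul, integral_const_mul, mul_div_mul_left _ _ (abs_ne_zero.mpr hT)]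
        congr 1
        have hV : Measurable fun t => (X β (δ T) t, phase (δ T) t) := by
          have a1 := (Pool.Agent.R313.TW.XX_meas (α := β / 2) ht).prodMk (Pool.Agent.Run7.h290.PH.phs_meas ht)
          have a2 : (fun t => (X β (δ T) t, phase (δ T) t)) =
              fun t => (Pool.Agent.R313.TW.XX (β / 2) (δ T) t, Pool.Agent.Run7.h290.PH.phs (δ T) t) := by
            funext t
            rw [eX, ep]
          rw [a2]
          exact a1
        rw [Measure.restrict_restrict (hV hB), Set.inter_comm]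
        rfl
      · filter_upwards [hlt] with T ht
        have hV : Measurable fun t => (X β (δ T) t, phase (δ T) t) := by
          have a1 := (Pool.Agent.R313.TW.XX_meas (α := β / 2) ht).prodMk (Pool.Agent.Run7.h290.PH.phs_meas ht)
          have a2 : (fun t => (X β (δ T) t, phase (δ T) t)) =
              fun t => (Pool.Agent.R313.TW.XX (β / 2) (δ T) t, Pool.Agent.Run7.h290.PH.phs (δ T) t) := by
            funext t
            rw [eX, ep]
          rw [a2]
          exact a1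
        exact ⟨((hzc ht).const_mul _).measurable, fun t => mul_nonneg (abs_nonneg _) (Real.rpow_nonneg (norm_nonneg _) _),
          ((hzc ht).const_mul _).continuousOn.integrableOn_compact isCompact_Icc, hV⟩
      · intro F
        have h2 := hreal F F.continuous ⟨‖F‖, fun x w _ => by rw [← Real.norm_eq_abs]; exact F.norm_coe_le_norm _⟩
        refine h2.congr' ?_
        filter_upwards [hmass.eventually (lt_mem_nhds ha), Pool.Agent.Y753.SHR.pos_path hδL, eventually_gt_atTop 0] with T hT hp hT0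
        have hpos : 0 ≤ (2 * δ T) ^ (β ^ 2 / 4) * (1 / T) := by positivity
        simp only [abs_of_nonneg hpos]
        rw [← integral_const_mul]
        refine integral_congr_ae (Eventually.of_forall fun t => ?_)
        simp only
        ring
    · have h1 := hreal (fun q => |q.2.re| ^ β) ((continuous_abs.comp (Complex.continuous_re.comp continuous_snd)).rpow_const
        fun _ => Or.inr hβ.le) ⟨1, fun x w hw => by
          rw [abs_of_nonneg (Real.rpow_nonneg (abs_nonneg _) _)]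
          exact Real.rpow_le_one (abs_nonneg _) ((Complex.abs_re_le_norm w).trans hw) hβ.le⟩
      have h2 := h1.div hmass ha.ne'
      have e10 : ∫ q, |q.2.re| ^ β ∂law = ∫ w, |w.re| ^ β ∂circ := by
        have : IsProbabilityMeasure circ := (inferInstance : IsProbabilityMeasure Pool.Agent.Run7.h290.PH.circ)
        have h3 := integral_fun_snd (μ := gaussianReal 0 1) (ν := circ) (f := fun w : ℂ => |w.re| ^ β)
        rw [probReal_univ, one_smul] at h3
        exact h3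
      rw [e10, mul_div_cancel_left₀ _ ha.ne'] at h2
      refine h2.congr' ?_
      filter_upwards [hc0] with T hT
      rw [Pi.div_apply]
      rw [mul_div_mul_left _ _ hT]
      congr 1
      refine integral_congr_ae (Eventually.of_forall fun t => ?_)
      simp only [phase]
      by_cases hz : z (δ T) t = 0
      · rw [hz]
        simp [Real.zero_rpow hβ.ne']
      · have hn : 0 < ‖z (δ T) t‖ := norm_pos_iff.mpr hz
        rw [← Real.mul_rpow hn.le (abs_nonneg _), Complex.div_ofReal_re, abs_div, abs_of_pos hn, mul_div_cancel₀ _ hn.ne']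
  · obtain ⟨E, hE, hvol, hall⟩ := Pool.Agent.Run7.h290.PH.main_all hδ hδL hκ
    refine ⟨E, fun T => ⟨(hE T).1, (hE T).2.1, fun t ht => ?_⟩, hvol, ?_⟩
    · have h1 := (hE T).2.2 t ht
      rw [← Pool.Agent.Y753.SHR.zn_za, e5] at h1
      exact h1
    · intro β hβ hcase h k hh hk hc F hF ⟨A, hA⟩
      have hβ2 : 0 < β / 2 := by positivity
      rw [e3 _ hβ2, e4 _ _ _ hβ2, ← eL F hF]
      refine ((hall (β / 2) hβ2 h k hh.ne' hk.ne' hc F hF A (fun q hq => hA q.1 q.2 hq)).1 ?_).congr fun T => eM β h k F T _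
      rcases hcase with h1 | h1
      · left; linarith
      · right; linarith

end Pool.Agent.Results.MP_973905_nt.PhaseEquidistribution
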